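import Mathlib

/-!
If `A` is a `Z*` algebra and `f : A → M(B)` is an injective Woronowicz morphism, then `B` is a
`Z*` algebra.
-/

open Filter Topology MultiplierAlgebra ComplexOrder

namespace Pool.Agent.Results.MP_e20a4f_an.InjectiveMorphism

/-- A C*-algebra `C` is a `Z*` algebra if every positive element `c` of `C` is a zero divisor:
`c * y = 0` or `y * c = 0` for some nonzero `y : C`. -/
def IsZStar (C : Type*) [NonUnitalCStarAlgebra C] [PartialOrder C] : Prop :=
  ∀ c : C, 0 ≤ c → ∃ y : C, y ≠ 0 ∧ (c * y = 0 ∨ y * c = 0)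

/-- A *-homomorphism `f : A → M(B)` (with `M(B)` the algebra of double centralizers of `B`; the
first component `m.fst` of a multiplier `m` is `b ↦ m b`) is a Woronowicz morphism from `A` to `B`
if the linear span of `{f a b : a ∈ A, b ∈ B}` is norm dense in `B`. -/
def IsWoronowicz {A B : Type*} [NonUnitalCStarAlgebra A] [NonUnitalCStarAlgebra B]
    (f : A →⋆ₙₐ[ℂ] 𝓜(ℂ, B)) : Prop :=
  Dense (Submodule.span ℂ {z : B | ∃ (a : A) (b : B), z = (f a).fst b} : Set B)

section key

variable {A : Type*} [NonUnitalCStarAlgebra A] [PartialOrder A] [StarOrderedRing A]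

lemma exists_left (hA : IsZStar A) {h : A} (hh : 0 ≤ h) : ∃ y : A, y ≠ 0 ∧ y * h = 0 := by
  obtain ⟨y, hy, h1 | h1⟩ := hA h hh
  · refine ⟨star y, star_ne_zero.2 hy, ?_⟩
    have h2 := congrArg star h1
    rwa [star_mul, (IsSelfAdjoint.of_nonneg hh).star_eq, star_zero] at h2
  · exact ⟨y, hy, h1⟩

lemma exists_seq (hA : IsZStar A) (s : ℕ → A) : ∃ x : A, x ≠ 0 ∧ ∀ n, x * s n = 0 := by
  set c : ℕ → ℝ := fun n => (1 / 2) ^ n * (1 + ‖s n‖ ^ 2)⁻¹ with hc
  have hcpos : ∀ n, 0 < c n := fun n => by positivity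
  have hle : ∀ n, ‖((c n : ℝ) : ℂ) • (s n * star (s n))‖ ≤ (1 / 2) ^ n := by
    intro n
    rw [norm_smul, Complex.norm_real, Real.norm_eq_abs, abs_of_pos (hcpos n),
      CStarRing.norm_self_mul_star]
    have h1 : (1 + ‖s n‖ ^ 2)⁻¹ * (‖s n‖ * ‖s n‖) ≤ 1 := by
      rw [inv_mul_le_iff₀ (by positivity)]
      nlinarith
    calc c n * (‖s n‖ * ‖s n‖) = (1 / 2) ^ n * ((1 + ‖s n‖ ^ 2)⁻¹ * (‖s n‖ * ‖s n‖)) := by
          simp only [hc]; ring
      _ ≤ (1 / 2) ^ n * 1 := by gcongr
      _ = (1 / 2) ^ n := mul_one _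
  have hsum : Summable (fun n => ((c n : ℝ) : ℂ) • (s n * star (s n))) :=
    Summable.of_norm_bounded (summable_geometric_two) hle
  have hnn : ∀ n, 0 ≤ ((c n : ℝ) : ℂ) • (s n * star (s n)) := by
    intro n
    refine smul_nonneg ?_ (mul_star_self_nonneg _)
    exact_mod_cast (hcpos n).le
  obtain ⟨x, hx, hxh⟩ := exists_left hA (tsum_nonneg hnn)
  refine ⟨x, hx, fun n => ?_⟩
  have h1 := (hsum.hasSum.mul_left x).mul_right (star x)
  rw [hxh, zero_mul] at h1
  have h2 : ∀ n, x * (((c n : ℝ) : ℂ) • (s n * star (s n))) * star x =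
      ((c n : ℝ) : ℂ) • ((x * s n) * star (x * s n)) := by
    intro n
    rw [mul_smul_comm, smul_mul_assoc, star_mul]
    simp only [mul_assoc]
  simp only [h2] at h1
  have h3 : ∀ n, 0 ≤ ((c n : ℝ) : ℂ) • ((x * s n) * star (x * s n)) := by
    intro n
    refine smul_nonneg ?_ (mul_star_self_nonneg _)
    exact_mod_cast (hcpos n).le
  have h4 := le_hasSum h1 n (fun j _ => h3 j)
  have h5 := le_antisymm h4 (h3 n)
  have h6 : ((c n : ℝ) : ℂ) ≠ 0 := by exact_mod_cast (hcpos n).ne'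
  rcases smul_eq_zero.1 h5 with h7 | h7
  · exact absurd h7 h6
  · exact CStarRing.mul_star_self_eq_zero_iff _ |>.1 h7

lemma exists_countable (hA : IsZStar A) {S : Set A} (hS : S.Countable) :
    ∃ x : A, x ≠ 0 ∧ ∀ s ∈ S, x * s = 0 := by
  rcases S.eq_empty_or_nonempty with rfl | hne
  · obtain ⟨x, hx, -⟩ := exists_seq hA (fun _ => 0)
    exact ⟨x, hx, by simp⟩
  · obtain ⟨s, rfl⟩ := hS.exists_eq_range hne
    obtain ⟨x, hx, h⟩ := exists_seq hA s
    exact ⟨x, hx, by rintro _ ⟨n, rfl⟩; exact h n⟩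

end key

/-- **Injective Woronowicz morphisms out of `Z*` algebras have `Z*` codomain.** -/
theorem result {A B : Type*} [NonUnitalCStarAlgebra A] [PartialOrder A] [StarOrderedRing A]
    [NonUnitalCStarAlgebra B] [PartialOrder B] [StarOrderedRing B]
    (f : A →⋆ₙₐ[ℂ] 𝓜(ℂ, B)) (hf : IsWoronowicz f) (hinj : Function.Injective f)
    (hA : IsZStar A) : IsZStar B := by
  intro b _
  have key : ∀ t ∈ Submodule.span ℂ {z : B | ∃ (a : A) (b : B), z = (f a).fst b},
      ∃ F : Set A, F.Countable ∧ ∀ x : A, (∀ s ∈ F, x * s = 0) → (f x).fst t = 0 := by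
    intro t ht
    induction ht using Submodule.span_induction with
    | mem t ht =>
      obtain ⟨a, c, rfl⟩ := ht
      refine ⟨{a}, Set.countable_singleton a, fun x hx => ?_⟩
      have h1 : f (x * a) = f x * f a := map_mul f x a
      rw [hx a rfl, map_zero] at h1
      have h2 : (f x * f a).fst c = (f x).fst ((f a).fst c) := by
        rw [DoubleCentralizer.mul_fst]; rfl
      rw [← h2, ← h1]
      simp
    | zero => exact ⟨∅, Set.countable_empty, fun x _ => map_zero _⟩
    | add u v _ _ hu hv =>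
      obtain ⟨F, hF, h1⟩ := hu
      obtain ⟨G, hG, h2⟩ := hv
      refine ⟨F ∪ G, hF.union hG, fun x hx => ?_⟩
      rw [map_add, h1 x (fun s hs => hx s (Or.inl hs)), h2 x (fun s hs => hx s (Or.inr hs)),
        add_zero]
    | smul k u _ hu =>
      obtain ⟨F, hF, h1⟩ := hu
      exact ⟨F, hF, fun x hx => by rw [map_smul, h1 x hx, smul_zero]⟩
  have happ : ∀ n : ℕ, ∃ t ∈ Submodule.span ℂ {z : B | ∃ (a : A) (b : B), z = (f a).fst b},
      dist b t < 1 / ((n : ℝ) + 1) := fun n =>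
    (Metric.dense_iff.1 hf b _ Nat.one_div_pos_of_nat).imp fun t ht =>
      ⟨ht.2, by rw [dist_comm]; exact ht.1⟩
  choose t ht hdist using happ
  have htend : Tendsto t atTop (𝓝 b) := by
    rw [tendsto_iff_dist_tendsto_zero]
    refine squeeze_zero (fun _ => dist_nonneg) (fun n => ?_)
      (tendsto_one_div_add_atTop_nhds_zero_nat (𝕜 := ℝ))
    rw [dist_comm]
    exact (hdist n).le
  choose F hF hkill using fun n => key (t n) (ht n)
  obtain ⟨x, hx, hxF⟩ := exists_countable hA (Set.countable_iUnion hF)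
  have h0 : (f x).fst b = 0 := by
    have h1 : Tendsto (fun n => (f x).fst (t n)) atTop (𝓝 ((f x).fst b)) :=
      ((f x).fst.continuous.tendsto b).comp htend
    have h2 : (fun n => (f x).fst (t n)) = fun _ => 0 := by
      funext n
      exact hkill n x (fun s hs => hxF s (Set.mem_iUnion.2 ⟨n, hs⟩))
    rw [h2] at h1
    exact tendsto_nhds_unique h1 tendsto_const_nhds
  have hfx : f x ≠ 0 := fun h => hx (hinj (h.trans (map_zero f).symm))
  have hsnd : (f x).snd ≠ 0 := by
    intro h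
    apply hfx
    rw [← norm_eq_zero, ← DoubleCentralizer.norm_snd, h, norm_zero]
  obtain ⟨c, hc⟩ : ∃ c, (f x).snd c ≠ 0 := by
    by_contra hcon
    push Not at hcon
    exact hsnd (ContinuousLinearMap.ext hcon)
  refine ⟨(f x).snd c, hc, Or.inr ?_⟩
  rw [(f x).central, h0, mul_zero]

end Pool.Agent.Results.MP_e20a4f_an.InjectiveMorphism
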